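import Pool.Agent.TH700.Samp

/-!
# No almost uniform sampler for optimal reversal sorting sequences unless `RP = NP`

Sketch.  If all cycles of the breakpoint graph have length at most two, then by the theory of
Hannenhalli and Pevzner in matrix form the optimal sorting sequences correspond to the orders in
which the cycles can be removed one after the other such that the overlap matrix of the remaining
cycles, with ones on the diagonal for the oriented cycles, stays nonsingular over the field with two
elements.  From a 3-CNF formula one builds a network of switches on `2 q + 1` wires which can
realise the cyclic shift of the wires iff the formula is satisfiable, and whose state then shows a
satisfying assignment.  The cycles are: two twin unoriented cycles for each switch, and `m` oriented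
twins for each of `2 q` pairs of cyclically adjacent wires, `m` a large even number.  Only the
parities of the numbers of remaining twins matter, and the matrix is nonsingular for all parities of
the oriented classes iff the set of the switches with an odd number of twins realises the shift.
Hence in all other states of the switches a constant proportion of the continuations is blocked
after two steps, and for large `m` at least three quarters of the optimal sorting sequences pass
through a permutation which shows a satisfying assignment.
-/

namespace Pool.Agent.Results.MP_f00251_lc.NoSampler

open Pool.Agent.TH700 Pool.Agent.H579R2.Spt

/-- If there is an almost uniform sampler for the optimal sorting sequences of signed permutations
then `RP = NP`. -/
theorem result : HasSampler → ∀ L : Set (List Bool), InRP L ↔ Pool.Agent.NPC.InNP L :=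
  sampler_rp

end Pool.Agent.Results.MP_f00251_lc.NoSampler
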